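import Pool.Agent.Results.MP_bd895b_nt.LocalGlobalComplexOfTwists
import Pool.Agent.R482.ST.Mills
import Mathlib.Algebra.Polynomial.Cardinal

/-!
# The local-global complex for zero-cycles modulo 2 on the twists of cyclic coverings near the powers of
# almost every number

Let `b y ^ 2 = ∏ k, G k (z, w)` be a hyperelliptic curve `D` over `ℚ`, where the `G k` are the
homogenisations of polynomials `g k` with integral coefficients, of even degrees, pairwise coprime, let
`h` be a polynomial with integral coefficients, coprime to the `g k`, `H` its homogenisation, and `m ∣ deg h`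
even. The curves

  `C a : b y ^ 2 = ∏ k, G k (z, w)`, `a x ^ m = H (z, w)`

are cyclic coverings of degree `m` of `D`, twists of each other, of arbitrary genus. The functions `G k`
define homomorphisms from `CH₀` of `C a` over a field `F` to `F* / F*²`, and the quaternion algebras
`(G k, e)`, `e ≠ 0`, belong to the Brauer group of `C a`.

**Theorem.** Let `v_n, L_n ≥ 1` be reals such that the sums of `L_n v_n ^ (-t)` converge for all `t > 0`
(`v_n = 3 ^ n` as in Mills's theorem, or `v_n = exp (√n)`, and `L_n = n ^ A`). For almost every `α > 1` and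
ALL data `b`, `g`, `h`, for all but finitely many `n`, for the squarefree part `a` of EVERY integer
`a t ^ 2 ≠ 0` with `||a t ^ 2| - α ^ (v_n)| ≤ L_n` (in particular for every squarefree integer `a` with
`||a| - α ^ (v_n)| ≤ L_n`) and all `m`, the following holds for every adelic zero-cycle `(z_v)` on `C a`, of
degrees of the parity of `d` at all places, which is orthogonal to the classes `(G k, e)`:

* (general) there are squarefree integers `n k` with `G k (z_v) = n k` in `ℚ_v* / ℚ_v*²` for all `k` and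
  all places `v`, and the family `n` is persistent: for every automorphism `σ` of the field of
  algebraic numbers there is a `σ`-stable set of zeros `β` of `h`, of cardinality congruent to `d`
  modulo 2, with `∏ β, g k (β) = n k * y k ^ 2`, `σ (y k) = y k`;
* (exactness) if the zeros of `h` are one or two rational numbers `α₁`, `α₂` (with any multiplicities),
  and if `d` is odd or `b ∏ g k (α₁)` is a square, then there is a zero-cycle `z` on `C a` over `ℚ` of
  degree `d` with `G k (z) = G k (z_v)` in `ℚ_v* / ℚ_v*²` for all `k` and all places `v`.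

So for these `a` the local-global complex modulo 2 for `C a` is exact up to elements of the kernels of the
maps `(G k)`, without assumptions on Tate-Shafarevich groups. The null set does not depend on the data.

The integers considered are extremely rare: for `v_n = 3 ^ n` and `L_n = n ^ A` there are only
`(log log X) ^ (A + 1)` of them up to `X`, so that the bound `C X (log X) ^ (-κ)` for the number of the
squarefree exceptions `a` in the starting result `LocalGlobalComplexOfTwists` (whose definitions are used)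
says nothing about them.

Proof. This bound and the theorem on the neighbourhoods of powers of `Pool.Agent.R482.ST.Mills`
(helper482), for each of the countably many data.
-/

set_option autoImplicit false

open MeasureTheory Polynomial Pool.Agent.R925.FD Pool.Agent.R925.ZC

namespace Pool.Agent.Results.MP_bd895b_nt.ComplexNearPowers

open LocalGlobalComplexOfTwists (Admissible OfPersistentClass AlmostNone)

/-- Every adelic zero-cycle on `C a`, for the even divisors `m` of `deg h`, of degrees of the parity of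
`d`, which is orthogonal to the classes `(G k, e)`, has the values of a persistent class. -/
def ValuesArePersistent {N : ℕ} (b : ℤ) (g : Fin N → ℤ[X]) (h : ℤ[X]) (a : ℤ) : Prop :=
  ∀ m : ℕ, 0 < m → Even m → m ∣ h.natDegree → ∀ (d : ℤ) (Z : AdelicCycle m b a g h), Z.Parity d →
    Z.Orthogonal → OfPersistentClass d Z

/-- Every adelic zero-cycle on `C a`, for the even divisors `m` of `deg h`, of degrees of the parity of
`d`, where `d` is odd or `b ∏ g k (α₁)` is a square, which is orthogonal to the classes `(G k, e)`, has the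
values of a zero-cycle over `ℚ` of degree `d`. -/
def ComplexIsExact {N : ℕ} (b : ℤ) (g : Fin N → ℤ[X]) (h : ℤ[X]) (α₁ : ℚ) (a : ℤ) : Prop :=
  ∀ m : ℕ, 0 < m → Even m → m ∣ h.natDegree → ∀ (d : ℤ) (Z : AdelicCycle m b a g h), Z.Parity d →
    Z.Orthogonal → (Odd d ∨ IsSquare ((b : ℚ) * ∏ k, aeval α₁ (g k))) →
      ∃ z : Cycle m b a g h ℚ, z.degree = d ∧ SameValues Z z

/-- The property `P` holds for the squarefree part `a` of every integer `a t ^ 2` in the windows around
the `α ^ (v n)`, for all but finitely many `n`. -/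
def HoldsNear (v L : ℕ → ℝ) (α : ℝ) (P : ℤ → Prop) : Prop :=
  ∃ n₀ : ℕ, ∀ n : ℕ, n₀ ≤ n → ∀ a t : ℤ, Squarefree a → 1 ≤ t →
    |(|a * t ^ 2| : ℝ) - α ^ (v n)| ≤ L n → P a

lemma near_of {v L : ℕ → ℝ} (hv : ∀ n, 1 ≤ v n) (hL : ∀ n, 1 ≤ L n)
    (hs : ∀ t : ℝ, 0 < t → Summable fun n => L n * (v n) ^ (-t)) {P Q : ℤ → Prop}
    (hP : AlmostNone P) (h : ∀ a, ¬ P a → Q a) :
    ∃ Z : Set ℝ, volume Z = 0 ∧ ∀ α : ℝ, 1 < α → α ∉ Z → HoldsNear v L α Q := by
  obtain ⟨κ, hκ, C, hC⟩ := hP
  obtain ⟨Z, hZ, hw⟩ := Pool.Agent.R482.ST.mills_twists P hκ 3 (fun X hX => hC X hX) hv hL (hs κ hκ)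
  refine ⟨Z, hZ, fun α hα hαZ => ?_⟩
  obtain ⟨n₀, hn⟩ := hw α hα hαZ
  exact ⟨n₀, fun n hn1 a t ha ht hat => h a (hn n hn1 a t ha ht hat)⟩

/-- **The local-global complex of the twisted coverings near the powers of almost every number.** -/
theorem result (v L : ℕ → ℝ) (hv : ∀ n, 1 ≤ v n) (hL : ∀ n, 1 ≤ L n)
    (hs : ∀ t : ℝ, 0 < t → Summable fun n => L n * (v n) ^ (-t)) :
    ∃ Z : Set ℝ, volume Z = 0 ∧ ∀ α : ℝ, 1 < α → α ∉ Z →
      ∀ (N : ℕ) (b : ℤ) (g : Fin N → ℤ[X]) (h : ℤ[X]), Admissible b g h →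
        HoldsNear v L α (ValuesArePersistent b g h) ∧
        ∀ α₁ α₂ : ℚ, (∀ β : AlgebraicClosure ℚ, aeval β h = 0 ↔ β = α₁ ∨ β = α₂) →
          HoldsNear v L α (ComplexIsExact b g h α₁) := by
  have hcount : Countable ℤ[X] := by
    rw [← Cardinal.mk_le_aleph0_iff]
    exact Polynomial.cardinalMk_le_max.trans (by simp)
  have hone : ∀ D : (Σ N : ℕ, (Fin N → ℤ[X])) × ℤ × ℤ[X], ∃ Z : Set ℝ, volume Z = 0 ∧
      (Admissible D.2.1 D.1.2 D.2.2 → ∀ α : ℝ, 1 < α → α ∉ Z →
        HoldsNear v L α (ValuesArePersistent D.2.1 D.1.2 D.2.2)) := by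
    rintro ⟨⟨N, g⟩, b, h⟩
    by_cases hA : Admissible b g h
    · obtain ⟨Z, hZ, h1⟩ := near_of (Q := ValuesArePersistent b g h) hv hL hs
        (LocalGlobalComplexOfTwists.result b g h hA).1 (fun a ha m hm hme hmh d Z h2 h3 => by
          by_contra hcon
          exact ha ⟨m, hm, hme, hmh, d, Z, h2, h3, hcon⟩)
      exact ⟨Z, hZ, fun _ => h1⟩
    · exact ⟨∅, measure_empty, fun h1 => absurd h1 hA⟩
  have htwo : ∀ D : ((Σ N : ℕ, (Fin N → ℤ[X])) × ℤ × ℤ[X]) × ℚ × ℚ, ∃ Z : Set ℝ, volume Z = 0 ∧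
      (Admissible D.1.2.1 D.1.1.2 D.1.2.2 →
        (∀ β : AlgebraicClosure ℚ, aeval β D.1.2.2 = 0 ↔ β = D.2.1 ∨ β = D.2.2) →
        ∀ α : ℝ, 1 < α → α ∉ Z → HoldsNear v L α (ComplexIsExact D.1.2.1 D.1.1.2 D.1.2.2 D.2.1)) := by
    rintro ⟨⟨⟨N, g⟩, b, h⟩, α₁, α₂⟩
    by_cases hA : Admissible b g h ∧ ∀ β : AlgebraicClosure ℚ, aeval β h = 0 ↔ β = α₁ ∨ β = α₂
    · obtain ⟨Z, hZ, h1⟩ := near_of (Q := ComplexIsExact b g h α₁) hv hL hs
        ((LocalGlobalComplexOfTwists.result b g h hA.1).2.1 α₁ α₂ hA.2)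
        (fun a ha m hm hme hmh d Z h2 h3 h4 => by
          by_contra hcon
          exact ha ⟨m, hm, hme, hmh, d, Z, h2, h3, h4, hcon⟩)
      exact ⟨Z, hZ, fun _ _ => h1⟩
    · exact ⟨∅, measure_empty, fun h1 h2 => absurd ⟨h1, h2⟩ hA⟩
  choose Z hZ h1 using hone
  choose Z' hZ' h2 using htwo
  refine ⟨(⋃ D, Z D) ∪ ⋃ D, Z' D, measure_union_null (measure_iUnion_null hZ)
    (measure_iUnion_null hZ'), fun α hα hαZ N b g h hA => ?_⟩
  rw [Set.mem_union, Set.mem_iUnion, Set.mem_iUnion] at hαZ
  push Not at hαZ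
  exact ⟨h1 ⟨⟨N, g⟩, b, h⟩ hA α hα (hαZ.1 _), fun α₁ α₂ hz =>
    h2 ⟨⟨⟨N, g⟩, b, h⟩, α₁, α₂⟩ hA hz α hα (hαZ.2 _)⟩

end Pool.Agent.Results.MP_bd895b_nt.ComplexNearPowers
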