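import Pool.Agent.N322.CF.Tw
import Pool.Agent.N53.CF.All
import Pool.Agent.N676.OR.Cnt
import Pool.Agent.N676.OR.ZC
import Pool.Agent.Results.MP_bd895b_nt.LocalGlobalComplexOfTwists

/-!
# The local-global complex for zero-cycles modulo 2 on twists of cyclic coverings, for twists by the
# numerators and denominators of the convergents of every continued fraction normal number

Let `b y ^ 2 = ∏ k, G k (z, w)` be a hyperelliptic curve `D` over `ℚ`, where the `G k` are the
homogenisations of polynomials `g k` with integral coefficients, of even degrees, pairwise coprime, and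
let `h` be a nonconstant polynomial with integral coefficients, coprime to the `g k`, `H` its
homogenisation (`Admissible`). For an integer `a` and an even `m ∣ deg h` let

  `C a : b y ^ 2 = ∏ k, G k (z, w)`, `a x ^ m = H (z, w)`,

a cyclic covering of `D`; for different `a` these curves are twists of each other. The genus is
arbitrary, and nothing is known about the Tate-Shafarevich groups of the Jacobians. The starting result
`LocalGlobalComplexOfTwists` (whose definitions are used) treats 100% of the squarefree integers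
`|a| ≤ X`, for one family `(b, g, h)`; the starting results `ThinSequencesOfTwists` and `RandomOrbits`
treat sequences of polynomial growth with a uniform distribution, and random orbits.

The integer `a` has the property `GoodTwist` if for all even `m ∣ deg h`, `m > 0`, and every adelic
zero-cycle `(z_v)` on `C a`, of degrees congruent to `d` modulo 2, which is orthogonal to the quaternion
algebras `(G k, e)`:
* there are squarefree integers `n k` with `G k (z_v) = n k` in `ℚ_v* / ℚ_v*²` for all `k` and all `v`,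
  and the family `n` is persistent;
* if the zeros of `h` are one or two rational numbers `α₁`, `α₂`, and `d` is odd or `b ∏ g k (α₁)` is a
  square, there is a zero-cycle `z` of degree `d` over `ℚ` with `G k (z) = G k (z_v)` in
  `ℚ_v* / ℚ_v*²` for all `k` and all `v`: the complex
  `CH₀(C a) / 2 → ∏ v, CH₀(C a over ℚ_v) / 2 → Hom(Br, ℚ/ℤ)` is exact up to the kernels of the `(G k)`.

**Theorem.** Let `α ∈ (0, 1)` be a continued fraction normal number (`CFNormal`: `α` is irrational, and
its orbit under the Gauss map `x ↦ 1 / x - ⌊1 / x⌋` is distributed according to the Gauss measure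
`dx / ((1 + x) log 2)`), with the convergents `p_n / q_n` (`cvg (dig α) n = (p_n, q_n)`). Then there is
ONE set `E` of indices of natural density zero such that for ALL families `(b, g, h)` and ALL integers
`u`, `v`, not both zero, the twist by `a = u p_n + v q_n` has the property `GoodTwist` for all but
finitely many `n ∉ E`. Almost all numbers `α` are normal, and explicit ones are known (Adler, Keane,
Smorodinsky).

The condition is only on `α`; it does not depend on the families of curves. There are at most
`O(log X)` convergents with `q_n ≤ X`, and the integers `a` are not squarefree in general.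

Proof. A set of integral vectors is pronull if its closure in the product of the `ℤ_p ^ 2` over the
primes `p` which do not divide `M` has Haar measure zero, for all `M`. For a class which is not
persistent there are a positive proportion of primes `p` (Chebotarev's theorem) such that no zero-cycle
on `C a` over `ℚ_p` has this class if `p` divides `a` exactly once (local analysis of helper925). The set
of the vectors `c` for which no such prime divides `λ(c)` exactly once is pronull (helper676, with the
engine of helper24, helper300 and helper765). The convergents of a normal number are in a pronull set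
only for indices of density zero (campaign CF of helper53, and helper322). There are countably many
`(b, g, h)` and `λ`, and a diagonal argument gives one set `E`.
-/

set_option autoImplicit false

namespace Pool.Agent.Results.MP_bd895b_nt.ConvergentsOfNormalNumbers

open Polynomial MeasureTheory Filter Topology Pool.Agent.R925.FD Pool.Agent.R925.ZC
open Pool.Agent.Results.MP_bd895b_nt.LocalGlobalComplexOfTwists (Admissible OfPersistentClass)
open Pool.Agent.N676.OR (Hit Big)
open Pool.Agent.N53.CF (CFNormal cvg)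
open Pool.Agent.W811.Stu (dig)

/-- `E` has natural density zero. -/
def DensityZero (E : Set ℕ) : Prop :=
  Tendsto (fun N : ℕ => (({x : ℕ | x < N ∧ x ∈ E}.ncard : ℕ) : ℝ) / (N : ℝ)) atTop (𝓝 0)

/-- The statements on the local-global complex modulo 2 for the curves `C a`, `m` even, `m ∣ deg h`. -/
def GoodTwist {r : ℕ} (b : ℤ) (g : Fin r → ℤ[X]) (h : ℤ[X]) (a : ℤ) : Prop :=
  ∀ m : ℕ, 0 < m → Even m → m ∣ h.natDegree → ∀ (d : ℤ) (Z : AdelicCycle m b a g h),
    Z.Parity d → Z.Orthogonal → OfPersistentClass d Z ∧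
    (∀ α₁ α₂ : ℚ, (∀ β : AlgebraicClosure ℚ, aeval β h = 0 ↔ β = α₁ ∨ β = α₂) →
      (Odd d ∨ IsSquare ((b : ℚ) * ∏ k, aeval α₁ (g k))) →
      ∃ z : Cycle m b a g h ℚ, z.degree = d ∧ SameValues Z z)

lemma goodTwist_of {r : ℕ} {b : ℤ} {g : Fin r → ℤ[X]} {h : ℤ[X]} (hA : Admissible b g h) :
    ∃ PP : Set (Set ℕ), PP.Finite ∧ (∀ P ∈ PP, Big P) ∧
      ∀ a : ℤ, (∀ P ∈ PP, Hit P a) → GoodTwist b g h a := by
  classical
  obtain ⟨PP, h1, h2, h3⟩ :=
    Pool.Agent.N676.OR.zc_once hA.b_ne hA.g_ne hA.h_deg hA.deg hA.coprime hA.coprime_h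
  refine ⟨PP, h1, h2, fun a ha m hm0 hm hmh d Z hd hZ => ?_⟩
  obtain ⟨n, hn1, hn2, hn3, hn4, hn5⟩ := h3 a ha m hm hmh d Z hd hZ
  refine ⟨⟨n, hn1, hn2, hn3, hn4, hn5⟩, fun α₁ α₂ hz hu => ?_⟩
  obtain ⟨z, hz1, hz2⟩ := realize (m := m) (a := a) hm0 hA.b_ne hz
    (fun k => g_ne hA.h_deg hA.coprime_h ((hz α₁).2 (Or.inl rfl)) k)
    (fun k => g_ne hA.h_deg hA.coprime_h ((hz α₂).2 (Or.inr rfl)) k) hu _ hn2 hn3
  exact ⟨z, hz1, fun k => same_aux (hn1 k).ne_zero (hn4 k) (hz2 k).2,
    fun k p => same_aux (hn1 k).ne_zero (hn5 k p) (hz2 k).2⟩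

/-- the property which is used for all data at once -/
lemma all_data : ∀ D : Σ r : ℕ, ℤ × (Fin r → ℤ[X]) × ℤ[X],
    ∃ PP : Set (Set ℕ), PP.Finite ∧ (∀ P ∈ PP, Big P) ∧ ∀ a : ℤ, (∀ P ∈ PP, Hit P a) →
      (Admissible D.2.1 D.2.2.1 D.2.2.2 → GoodTwist D.2.1 D.2.2.1 D.2.2.2 a) := by
  rintro ⟨r, b, g, h⟩
  by_cases hA : Admissible b g h
  · obtain ⟨PP, h1, h2, h3⟩ := goodTwist_of hA
    exact ⟨PP, h1, h2, fun a ha _ => h3 a ha⟩
  · exact ⟨∅, Set.finite_empty, fun P hP => absurd hP (Set.notMem_empty _),
      fun a _ hA' => absurd hA' hA⟩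

/-- all families of curves at once -/
theorem conv (α : ℝ) (hα : CFNormal α) : ∃ E : Set ℕ, DensityZero E ∧
    ∀ (r : ℕ) (b : ℤ) (g : Fin r → ℤ[X]) (h : ℤ[X]), Admissible b g h →
      ∀ u v : ℤ, u ≠ 0 ∨ v ≠ 0 →
        {n : ℕ | n ∉ E ∧ ¬ GoodTwist b g h (u * cvg (dig α) n 0 + v * cvg (dig α) n 1)}.Finite := by
  classical
  have hcp := Pool.Agent.N676.OR.countable_poly
  obtain ⟨E, hE, hall⟩ := Pool.Agent.N322.CF.cf_tw' Pool.Agent.N53.CF.main
    (𝔇 := Σ r : ℕ, ℤ × (Fin r → ℤ[X]) × ℤ[X])
    (fun D a => Admissible D.2.1 D.2.2.1 D.2.2.2 → GoodTwist D.2.1 D.2.2.1 D.2.2.2 a)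
    all_data α hα
  refine ⟨E, hE, fun r b g h hA u v huv => (hall u v huv ⟨r, b, g, h⟩).subset ?_⟩
  rintro n ⟨hn, hn'⟩
  exact ⟨hn, fun hgood => hn' (hgood hA)⟩

theorem result :
    (∀ᵐ α ∂(volume.restrict (Set.Ioo (0 : ℝ) 1)), CFNormal α) ∧
    (∀ α : ℝ, CFNormal α → ∃ E : Set ℕ, DensityZero E ∧
      ∀ (r : ℕ) (b : ℤ) (g : Fin r → ℤ[X]) (h : ℤ[X]), Admissible b g h →
        ∀ u v : ℤ, u ≠ 0 ∨ v ≠ 0 →
          {n : ℕ | n ∉ E ∧
            ¬ GoodTwist b g h (u * cvg (dig α) n 0 + v * cvg (dig α) n 1)}.Finite) :=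
  ⟨Pool.Agent.N53.CF.t_TYP, conv⟩

end Pool.Agent.Results.MP_bd895b_nt.ConvergentsOfNormalNumbers
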