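import Pool.Agent.Zk82.DN.One
import Pool.Agent.Zk99.NormalAe
import Pool.Agent.Zk85.ChampNormal
import Pool.Agent.N676.OR.Cnt
import Pool.Agent.N676.OR.ZC
import Pool.Agent.Results.MP_bd895b_nt.LocalGlobalComplexOfTwists

/-!
# The local-global complex for zero-cycles modulo 2 on twists of cyclic coverings, for twists by the
# integers formed by the first digits of every normal number

Let `b y ^ 2 = ∏ k, G k (z, w)` be a hyperelliptic curve `D` over `ℚ`, where the `G k` are the
homogenisations of polynomials `g k` with integral coefficients, of even degrees, pairwise coprime, and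
let `h` be a nonconstant polynomial with integral coefficients, coprime to the `g k`, `H` its
homogenisation (`Admissible`). For an integer `a` and an even `m ∣ deg h` let

  `C a : b y ^ 2 = ∏ k, G k (z, w)`, `a x ^ m = H (z, w)`,

a cyclic covering of `D`; for different `a` these curves are twists of each other. The genus is
arbitrary, and nothing is known about the Tate-Shafarevich groups of the Jacobians. The starting result
`LocalGlobalComplexOfTwists` (whose definitions are used) treats 100% of the squarefree integers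
`|a| ≤ X`, for one family `(b, g, h)`; the starting results `ThinSequencesOfTwists` and `RandomOrbits`
treat sequences of polynomial growth with a uniform distribution, and random orbits; the hand-in
`ConvergentsOfNormalNumbers` (helper44) the convergents of continued fraction normal numbers. Nothing was
known on the twists by the integers `1`, `12`, `123`, `1234`, `12345`, … formed by the first digits of a
number.

The integer `a` has the property `GoodTwist` if for all even `m ∣ deg h`, `m > 0`, and every adelic
zero-cycle `(z_v)` on `C a`, of degrees congruent to `d` modulo 2, which is orthogonal to the quaternion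
algebras `(G k, e)`:
* there are squarefree integers `n k` with `G k (z_v) = n k` in `ℚ_v* / ℚ_v*²` for all `k` and all `v`,
  and the family `n` is persistent;
* if the zeros of `h` are one or two rational numbers `α₁`, `α₂`, and `d` is odd or `b ∏ g k (α₁)` is a
  square, there is a zero-cycle `z` of degree `d` over `ℚ` with `G k (z) = G k (z_v)` in
  `ℚ_v* / ℚ_v*²` for all `k` and all `v`: the complex
  `CH₀(C a) / 2 → ∏ v, CH₀(C a over ℚ_v) / 2 → Hom(Br, ℚ/ℤ)` is exact up to the kernels of the `(G k)`.

**Theorem.** Let `B ≥ 2` and let `δ` be a normal sequence of vectors in `{0, …, B - 1} ^ ι`, `ι` a finite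
set (`NormalSeq`: every word of `k` vectors has the frequency `B ^ (- k |ι|)`; for `|ι| = 1`: the digits of
a number which is normal in base `B`, for example Champernowne's number `0.123456789101112…`, `B = 10`), and
let `trunc δ n` be the vector of the integers with the digits `δ 0 i, …, δ (n - 1) i`. Then there is ONE
set `E` of natural density zero such that for ALL families `(b, g, h)`, ALL `P ∈ ℤ ^ ι` and ALL
`λ ∈ ℤ ^ ι`, `λ ≠ 0`, the twist by `a = ∑ λ i (P i B ^ n + trunc δ n i)` (the digits of `P i` followed by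
the first `n` digits `δ j i`) has the property `GoodTwist` for all but finitely many `n ∉ E`.

The condition is only on `δ`; it does not depend on the families of curves. There are only `O(log X)`
of these integers `a` up to `X`, and they are not squarefree in general. Almost all sequences are normal
(proved here, part 1), and many explicit ones are known (Champernowne, Copeland, Erdős, …). For an
explicit example we prove (part 3) that the binary Champernowne sequence `1 10 11 100 101 110 111 1000 …`
is normal: so, unconditionally, the twists by the explicit integers `a = 1, 3, 6, 13, 27, 55, …` (in base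
`2`: `1, 11, 110, 1101, 11011, 110111, …`) are good twists, for all families, outside ONE set of density
zero.

Proof. A set of integral vectors is pronull if its closure in the product of the `ℤ_p ^ ι` over the
primes `p` which do not divide `M` has Haar measure zero, for all `M`. For a class which is not
persistent there are a positive proportion of primes `p` (Chebotarev's theorem) such that no zero-cycle
on `C a` over `ℚ_p` has this class if `p` divides `a` exactly once (local analysis of helper925). The set
of the vectors `c` for which no such prime divides `λ(c)` exactly once is pronull (helper676, with the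
engine of helper24, helper300 and helper765). New: the vectors `P B ^ n + trunc δ n` of EVERY normal
sequence are uniformly distributed modulo every `q` prime to `B` (van der Corput's inequality, with shifts
by multiples of `φ(q)`: for `B ^ m ≡ 1` modulo `q` the difference of the terms `n + m` and `n` depends only
on the digits `δ n, …, δ (n + m - 1)`, and its exponential sum over all words is a product), so that they
are in a pronull set only for `n` of density zero (`Pool/Agent/Zk82/DN`). There are countably many
`(b, g, h)`, `P` and `λ`, and a diagonal argument gives one set `E`. The definitions of `GoodTwist` and the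
lemmas `goodTwist_of`, `all_data` are those of `ConvergentsOfNormalNumbers` (helper44).
-/

set_option autoImplicit false

namespace Pool.Agent.Results.MP_bd895b_nt.DigitsOfNormalNumbers

open Polynomial MeasureTheory Filter Topology Pool.Agent.R925.FD Pool.Agent.R925.ZC
open Pool.Agent.Results.MP_bd895b_nt.LocalGlobalComplexOfTwists (Admissible OfPersistentClass)
open Pool.Agent.N676.OR (Hit Big)
open Pool.Agent.Zk82.DN (NormalSeq trunc)

/-- `E` has natural density zero. -/
def DensityZero (E : Set ℕ) : Prop :=
  Tendsto (fun N : ℕ => (({x : ℕ | x < N ∧ x ∈ E}.ncard : ℕ) : ℝ) / (N : ℝ)) atTop (𝓝 0)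

/-- The statements on the local-global complex modulo 2 for the curves `C a`, `m` even, `m ∣ deg h`. -/
def GoodTwist {r : ℕ} (b : ℤ) (g : Fin r → ℤ[X]) (h : ℤ[X]) (a : ℤ) : Prop :=
  ∀ m : ℕ, 0 < m → Even m → m ∣ h.natDegree → ∀ (d : ℤ) (Z : AdelicCycle m b a g h),
    Z.Parity d → Z.Orthogonal → OfPersistentClass d Z ∧
    (∀ α₁ α₂ : ℚ, (∀ β : AlgebraicClosure ℚ, aeval β h = 0 ↔ β = α₁ ∨ β = α₂) →
      (Odd d ∨ IsSquare ((b : ℚ) * ∏ k, aeval α₁ (g k))) →
      ∃ z : Cycle m b a g h ℚ, z.degree = d ∧ SameValues Z z)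

lemma goodTwist_of {r : ℕ} {b : ℤ} {g : Fin r → ℤ[X]} {h : ℤ[X]} (hA : Admissible b g h) :
    ∃ PP : Set (Set ℕ), PP.Finite ∧ (∀ P ∈ PP, Big P) ∧
      ∀ a : ℤ, (∀ P ∈ PP, Hit P a) → GoodTwist b g h a := by
  classical
  obtain ⟨PP, h1, h2, h3⟩ :=
    Pool.Agent.N676.OR.zc_once hA.b_ne hA.g_ne hA.h_deg hA.deg hA.coprime hA.coprime_h
  refine ⟨PP, h1, h2, fun a ha m hm0 hm hmh d Z hd hZ => ?_⟩
  obtain ⟨n, hn1, hn2, hn3, hn4, hn5⟩ := h3 a ha m hm hmh d Z hd hZ
  refine ⟨⟨n, hn1, hn2, hn3, hn4, hn5⟩, fun α₁ α₂ hz hu => ?_⟩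
  obtain ⟨z, hz1, hz2⟩ := realize (m := m) (a := a) hm0 hA.b_ne hz
    (fun k => g_ne hA.h_deg hA.coprime_h ((hz α₁).2 (Or.inl rfl)) k)
    (fun k => g_ne hA.h_deg hA.coprime_h ((hz α₂).2 (Or.inr rfl)) k) hu _ hn2 hn3
  exact ⟨z, hz1, fun k => same_aux (hn1 k).ne_zero (hn4 k) (hz2 k).2,
    fun k p => same_aux (hn1 k).ne_zero (hn5 k p) (hz2 k).2⟩

/-- the property which is used for all data at once -/
lemma all_data : ∀ D : Σ r : ℕ, ℤ × (Fin r → ℤ[X]) × ℤ[X],
    ∃ PP : Set (Set ℕ), PP.Finite ∧ (∀ P ∈ PP, Big P) ∧ ∀ a : ℤ, (∀ P ∈ PP, Hit P a) →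
      (Admissible D.2.1 D.2.2.1 D.2.2.2 → GoodTwist D.2.1 D.2.2.1 D.2.2.2 a) := by
  rintro ⟨r, b, g, h⟩
  by_cases hA : Admissible b g h
  · obtain ⟨PP, h1, h2, h3⟩ := goodTwist_of hA
    exact ⟨PP, h1, h2, fun a ha _ => h3 a ha⟩
  · exact ⟨∅, Set.finite_empty, fun P hP => absurd hP (Set.notMem_empty _),
      fun a _ hA' => absurd hA' hA⟩

/-- The binary Champernowne sequence: the binary digits of `1, 2, 3, …`, written one after another. -/
def champ : ℕ → Fin 1 → Fin 2 := fun n _ =>
  ⟨Pool.Agent.R521.Champ.digit n, Nat.lt_succ_of_le (Pool.Agent.R521.Champ.digit_le n)⟩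

/-- all families of curves at once -/
theorem digits {ι : Type} [Fintype ι] [DecidableEq ι] {B : ℕ} (hB : 2 ≤ B) (δ : ℕ → ι → Fin B)
    (hδ : NormalSeq δ) : ∃ E : Set ℕ, DensityZero E ∧
    ∀ (r : ℕ) (b : ℤ) (g : Fin r → ℤ[X]) (h : ℤ[X]), Admissible b g h →
      ∀ P lam : ι → ℤ, lam ≠ 0 →
        {n : ℕ | n ∉ E ∧
          ¬ GoodTwist b g h (∑ i, lam i * (P i * (B : ℤ) ^ n + trunc δ n i))}.Finite := by
  classical
  have hcp := Pool.Agent.N676.OR.countable_poly
  obtain ⟨E, hE, hall⟩ := Pool.Agent.Zk82.DN.one_tw hB hδ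
    (𝔇 := Σ r : ℕ, ℤ × (Fin r → ℤ[X]) × ℤ[X])
    (fun D a => Admissible D.2.1 D.2.2.1 D.2.2.2 → GoodTwist D.2.1 D.2.2.1 D.2.2.2 a)
    all_data
  refine ⟨E, hE, fun r b g h hA P lam hlam => (hall P lam hlam ⟨r, b, g, h⟩).subset ?_⟩
  rintro n ⟨hn, hn'⟩
  exact ⟨hn, fun hgood => hn' (hgood hA)⟩

/-- the integers formed by the first digits of the binary Champernowne sequence -/
lemma trunc_champ : trunc champ 1 0 = 1 ∧ trunc champ 2 0 = 3 ∧ trunc champ 3 0 = 6 ∧
    trunc champ 4 0 = 13 ∧ trunc champ 5 0 = 27 ∧ trunc champ 6 0 = 55 := by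
  have h : Pool.Agent.R521.Champ.digit 0 = 1 ∧ Pool.Agent.R521.Champ.digit 1 = 1 ∧
      Pool.Agent.R521.Champ.digit 2 = 0 ∧ Pool.Agent.R521.Champ.digit 3 = 1 ∧
      Pool.Agent.R521.Champ.digit 4 = 1 ∧ Pool.Agent.R521.Champ.digit 5 = 1 := by
    refine ⟨?_, ?_, ?_, ?_, ?_, ?_⟩ <;>
      simp [Pool.Agent.R521.Champ.digit, Pool.Agent.R521.Champ.word, List.range_succ]
  obtain ⟨h0, h1, h2, h3, h4, h5⟩ := h
  simp only [trunc, champ, h0, h1, h2, h3, h4, h5]
  norm_num

/-- **Twists by the integers formed by the first `n` digits of every normal number.** -/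
theorem result (ι : Type) [Fintype ι] [DecidableEq ι] (B : ℕ) (hB : 2 ≤ B) :
    -- (1) almost every sequence of independent uniformly distributed digit vectors is normal
    (∀ (μ : Measure (ι → Fin B)) [IsProbabilityMeasure μ],
      (∀ a, μ {a} = ((B : ENNReal) ^ Fintype.card ι)⁻¹) →
      ∀ᵐ δ ∂(Measure.infinitePi fun _ : ℕ => μ), NormalSeq δ) ∧
    -- (2) every normal sequence
    (∀ δ : ℕ → ι → Fin B, NormalSeq δ → ∃ E : Set ℕ, DensityZero E ∧
      ∀ (r : ℕ) (b : ℤ) (g : Fin r → ℤ[X]) (h : ℤ[X]), Admissible b g h →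
        ∀ P lam : ι → ℤ, lam ≠ 0 →
          {n : ℕ | n ∉ E ∧
            ¬ GoodTwist b g h (∑ i, lam i * (P i * (B : ℤ) ^ n + trunc δ n i))}.Finite) ∧
    -- (3) an explicit example: the binary Champernowne sequence
    (NormalSeq champ ∧ trunc champ 1 0 = 1 ∧ trunc champ 2 0 = 3 ∧ trunc champ 3 0 = 6 ∧
      trunc champ 4 0 = 13 ∧ trunc champ 5 0 = 27 ∧ trunc champ 6 0 = 55) :=
  ⟨fun μ _ hμ => Pool.Agent.Zk99.NormalAe.ae_normal μ hμ, fun δ hδ => digits hB δ hδ,
    Pool.Agent.Zk85.champ_normal, trunc_champ⟩

end Pool.Agent.Results.MP_bd895b_nt.DigitsOfNormalNumbers
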